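import Pool.Agent.Helper36.RN.MainA
import Pool.Agent.Helper2.RN.DIC
import Pool.Agent.Helper58.RN.HEX

/-!
# Project FLG: the heat equation of one metric (time independent frame)

`statHeat`: for a frame `Frm A θ` and `τ > 0` there is a solution of the heat equation on `[0, τ]` with any smooth initial
value. The proof is the one of `Helper58.RN.hex` with constant curves of coefficients.
-/

set_option autoImplicit false

namespace Pool.Agent.Helper36.FLG

open Set Filter Topology MeasureTheory Pool.Agent.Helper47.RFn Pool.Agent.Helper36.RN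
open Pool.Agent.Helper58.RN.HEX

/-- existence for the heat equation of a time independent frame -/
def StatHeatStmt : Prop :=
  ∀ n : ℕ, 2 ≤ n → ∀ (τ : ℝ) (A θ : MF n), 0 < τ → Frm A θ → ∀ f : EE n → ℝ, Sm f →
    ∃ u : ℝ → EE n → ℝ, HeatOn (Set.Icc 0 τ) (fun _ => A) (fun _ => θ) u ∧ ∀ x, x ≠ 0 → u 0 x = f x

theorem statHeat0 (hlin : G_LIN) (hdic : R_DIC) (hcv : R_CV) (hcda : R_CDA) : StatHeatStmt := by
  intro n hn τ A θ hτ hfl f hf
  obtain ⟨-, -, -, -, -, -, -, -, -, -, -, -, kc, kadd, ksub, kmul, kneg, ksmul, kLd, kEe, ksum,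
    kcongr, -, kbd⟩ := hcda n τ
  have hsA : ∀ a i, Sm (fun x => A x a i) := hfl.smA
  have hst : ∀ i a, Sm (fun x => θ x i a) := hfl.smt
  obtain ⟨xA, hAc, hAv⟩ : ∃ xA : Ix n → Ix n → ℝ → XS n, (∀ a i, CC τ (xA a i)) ∧
      ∀ a i, ∀ t ∈ Icc 0 τ, xA a i t = toXS (fun x => A x a i) (hsA a i) :=
    ⟨fun a i _ => toXS (fun x => A x a i) (hsA a i), fun a i => kc _, fun _ _ _ _ => rfl⟩
  obtain ⟨xt, htc, htv⟩ : ∃ xt : Ix n → Ix n → ℝ → XS n, (∀ i a, CC τ (xt i a)) ∧
      ∀ i a, ∀ t ∈ Icc 0 τ, xt i a t = toXS (fun x => θ x i a) (hst i a) :=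
    ⟨fun i a _ => toXS (fun x => θ x i a) (hst i a), fun i a => kc _, fun _ _ _ _ => rfl⟩
  -- curves of coefficients
  have hFd : ∀ (a : Ix n) (y : ℝ → XS n), CC τ y →
      CC τ (fun t => FR.Fd (Ee (n := n)) (fun a i => xA a i t) a (y t)) := by
    intro a y hy
    exact ksum (Ix n) Finset.univ (fun i t => xA a i t * Ee i (y t)) fun i _ =>
      kmul _ _ (hAc a i) (kEe i y hy)
  have hnf : ∀ a : Ix n, CC τ (fun t => FR.nf nu (fun a i => xA a i t) a) := by
    intro a
    exact ksum (Ix n) Finset.univ (fun i t => xA a i t * nu i) fun i _ =>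
      kmul _ _ (hAc a i) (kc _)
  have hC : ∀ a b c : Ix n, CC τ (fun t => FR.C (Ee (n := n)) nu (fun a i => xA a i t) (fun i a => xt i a t) a b c) := by
    intro a b c
    exact kadd _ _ (ksum (Ix n) Finset.univ (fun j t =>
      (FR.Fd (Ee (n := n)) (fun a i => xA a i t) a (xA b j t) - FR.Fd (Ee (n := n)) (fun a i => xA a i t) b (xA a j t))
        * xt j c t) fun j _ =>
      kmul _ _ (ksub _ _ (hFd a _ (hAc b j)) (hFd b _ (hAc a j))) (htc j c))
      (ksub _ _ (kmul _ _ (hnf a) (kc _)) (kmul _ _ (hnf b) (kc _)))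
  have hG : ∀ a b c : Ix n,
      CC τ (fun t => FR.Gam (Ee (n := n)) nu (fun a i => xA a i t) (fun i a => xt i a t) a b c) := by
    intro a b c
    exact ksmul _ _ (kadd _ _ (ksub _ _ (hC a b c) (hC b c a)) (hC c a b))
  have hal : ∀ k l : Ix n, CC τ (fun t => TC.al (fun a i => xA a i t) k l) := by
    intro k l
    exact ksum (Ix n) Finset.univ (fun a t => xA a k t * xA a l t) fun a _ =>
      kmul _ _ (hAc a k) (hAc a l)
  have haa : ∀ p q : KK n, CC τ (fun t => aa (fun a i => xA a i t) p q) := by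
    intro p q
    exact kmul _ _ (kmul _ _ (kc _) (hal _ _)) (kc _)
  have hcc : ∀ l : Ix n, CC τ (fun t => cc (fun a i => xA a i t)
      (fun a b => FR.Gam (Ee (n := n)) nu (fun a i => xA a i t) (fun i a => xt i a t) a a b) l) := by
    intro l
    exact ksub _ _
      (ksum (Ix n) Finset.univ (fun a t => ∑ k, xA a k t * Ee k (xA a l t)) fun a _ =>
        ksum (Ix n) Finset.univ (fun k t => xA a k t * Ee k (xA a l t)) fun k _ =>
          kmul _ _ (hAc a k) (kEe k _ (hAc a l)))
      (ksum (Ix n) Finset.univ (fun a t => ∑ b,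
          FR.Gam (Ee (n := n)) nu (fun a i => xA a i t) (fun i a => xt i a t) a a b * xA b l t) fun a _ =>
        ksum (Ix n) Finset.univ (fun b t =>
          FR.Gam (Ee (n := n)) nu (fun a i => xA a i t) (fun i a => xt i a t) a a b * xA b l t) fun b _ =>
          kmul _ _ (hG a a b) (hAc b l))
  have hbb : ∀ q : KK n, CC τ (fun t => bb' (fun a i => xA a i t)
      (fun a b => FR.Gam (Ee (n := n)) nu (fun a i => xA a i t) (fun i a => xt i a t) a a b) q) := by
    intro q
    exact kadd _ _ (kmul _ _ (kc _) (hcc q.2))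
      (ksum (KK n) Finset.univ (fun p t => nu p.1 * TC.al (fun a i => xA a i t) p.2 q.2 *
        Ld p (nu q.1)) fun p _ => kmul _ _ (kmul _ _ (kc _) (hal _ _)) (kc _))
  -- bound of `θ`
  have hbd : ∃ M : ℝ, 0 < M ∧ ∀ t ∈ Icc 0 τ, ∀ i a (x : Om n), |(xt i a t).1 x| ≤ M := by
    choose M hM using fun i a => kbd _ (htc i a)
    refine ⟨∑ i, ∑ j, |M i j| + 1, by positivity, fun t ht i j x => ?_⟩
    have h1 := (hM i j t ht x).trans (le_abs_self (M i j))
    have h2 : |M i j| ≤ ∑ j, |M i j| :=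
      Finset.single_le_sum (f := fun j => |M i j|) (fun j _ => abs_nonneg _) (Finset.mem_univ j)
    have h3 : ∑ j, |M i j| ≤ ∑ i, ∑ j, |M i j| :=
      Finset.single_le_sum (f := fun i => ∑ j, |M i j|)
        (fun i _ => Finset.sum_nonneg fun j _ => abs_nonneg _) (Finset.mem_univ i)
    linarith
  obtain ⟨M, hM0, hM⟩ := hbd
  have hell : ∀ t ∈ Icc 0 τ, EllA (1 / (4 * (((n : ℝ) + 1) ^ 2 * M ^ 2)))
      (fun p q => aa (fun a i => xA a i t) p q) := by
    intro t ht
    refine ellA (θ := fun i a => xt i a t) hM0 ?_ (fun i a x => hM t ht i a x)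
    intro x
    have e1 : (Matrix.of fun a i => (xA a i t).1 x) = A x.1 := by
      ext a i
      rw [Matrix.of_apply, hAv a i t ht]
      rfl
    have e2 : (Matrix.of fun i a => (xt i a t).1 x) = θ x.1 := by
      ext i a
      rw [Matrix.of_apply, htv i a t ht]
      rfl
    rw [e1, e2]
    exact hfl.inv x.1
  obtain ⟨y, hy0, hy⟩ := hlin n (by omega) τ (1 / (4 * (((n : ℝ) + 1) ^ 2 * M ^ 2)))
    (fun p q t => aa (fun a i => xA a i t) p q)
    (fun q t => bb' (fun a i => xA a i t)
      (fun a b => FR.Gam (Ee (n := n)) nu (fun a i => xA a i t) (fun i a => xt i a t) a a b) q)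
    (toXS f hf) hτ (by positivity) haa hbb hell
  refine ⟨fun t => ext (y t).1, ?_, fun x hx => ?_⟩
  · refine smfam1_congr0 ?_ (hcv n τ y _ hy)
    intro t ht x hx
    have h1 := (hdic n A θ hsA hst).2.2.2.2.2 (ext (y t).1) (sm (y t)) ⟨x, hx⟩
    have h2 : toXS (ext (y t).1) (sm (y t)) = y t := XS_ext fun z => ext_apply _ _
    have h3 : (fun a i => toXS (fun x => A x a i) (hsA a i)) = fun a i => xA a i t := by
      funext a i
      exact (hAv a i t ht).symm
    have h4 : (fun i a => toXS (fun x => θ x i a) (hst i a)) = fun i a => xt i a t := by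
      funext i a
      exact (htv i a t ht).symm
    rw [h2, h3, h4] at h1
    have h5 := lap_eq (fun a i => xA a i t)
      (fun a b => FR.Gam (Ee (n := n)) nu (fun a i => xA a i t) (fun i a => xt i a t) a a b) (y t)
    rw [h5] at h1
    rw [ext_of_ne _ hx]
    exact h1
  · change ext (y 0).1 x = f x
    rw [hy0]
    exact ext_toXS f hf hx

/-- existence for the heat equation of a time independent frame -/
theorem statHeat : StatHeatStmt := statHeat0 lin Pool.Agent.Helper2.RN.dic cv cda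

end Pool.Agent.Helper36.FLG
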