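import Pool.Agent.Helper36.FLG.HzF
import Pool.Agent.Helper36.FLG.StatHeat
import Pool.Agent.Helper36.RN.Heat
import Pool.Agent.Helper73.RFn.AsmN
import Pool.Agent.Helper90.FLG.STH
import Pool.Agent.Helper16.FLG.CUT

/-!
# Project FLG: the function level statements SthF, CutF, and HrnF from HRN
-/

set_option autoImplicit false

namespace Pool.Agent.Helper36.FLG

open Pool.Agent.Helper47.RFn Pool.Agent.Helper47.RFn.Asm Pool.Agent.Helper47.FLG Pool.Agent.Helper73.RFn.AsmN

theorem sthG : G_STH := Pool.Agent.Helper90.FLG.g_STH cMP1 cBOC cPRD cVIN cBDD cBIA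

theorem cutG : G_CUT := Pool.Agent.Helper16.FLG.g_CUT cMP1 cBOC cPRD cVIN cBIA

/-- static heat equation: gradient and time derivative -/
theorem sthS : SthF := sthF eMOD eEM eLNK cE0 eYOM cVIH cC2 cC8 cC9 jsmS fhmS sthG

/-- static heat equation: cut-off -/
theorem cutS : CutF := cutF eMOD eEM eLNK cE0 eYOM cVIH cC2 cC8 cC9 jsmS fhmS sthG cutG

/-- the Harnack inequality at the function level -/
theorem hrnS (h : G_HRN) : HrnF :=
  hrnF eMOD eEM eLNK eFLB eATO cC8 fjsS hjsS fhmS eFRF jsrS Pool.Agent.Helper36.RN.heatEx h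

end Pool.Agent.Helper36.FLG
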