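import Pool.Agent.Helper47.FLG.Pde
import Pool.Agent.Helper73.RFn.GoalsI

/-!
# Project FLG, function level statements: the static heat equation and the Harnack inequality

`RcF A θ x k`: the Ricci curvature is at least `k` on the orthogonal complement of the radial vector.
`SthF`, `CutF`: the goals STH, CUT of `Helper47/FLG/Pde.lean` for the static metric of a frame.
`HrnF`: the goal HRN for a flow.
-/

set_option autoImplicit false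

namespace Pool.Agent.Helper36.FLG

open Finset Pool.Agent.Helper47.RFn Pool.Agent.Helper47.FLG

/-- lower Ricci bound at `x` -/
def RcF {n : ℕ} (A θ : MF n) (x : EE n) (k : ℝ) : Prop := ∀ v : Ix n → ℝ,
  k * (nrm v - dot v (fun a => nfc A a x) ^ 2) ≤ ∑ a, ∑ b, Rcf A θ a b x * v a * v b

/-- the curvature tensor at `x` is in the cone `FG` -/
def FGx {n : ℕ} (A θ : MF n) (x : EE n) : Prop := ∀ ι, Iso (fun a => nfc A a x) ι →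
  FG (pull ι (fun a b c d => Rf A θ a b c d x))

/-- soft estimate at `x` with a constant `b` instead of `1/t` -/
def SfCx {n : ℕ} (A θ : MF n) (ε K b : ℝ) (x : EE n) : Prop := ∀ ι, Iso (fun a => nfc A a x) ι →
  ∀ z' w' : Fin n → ℂ,
    Real.sqrt (hh (pull ι (fun a b c d => Rf A θ a b c d x))) * qf (Id4 n) z' w' ≤
      (ε * lamf A θ x + K * b) * qf (Id4 n) z' w' + K * qf (pull ι (fun a b c d => Rf A θ a b c d x)) z' w'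

/-- STH at the function level -/
def SthF : Prop := ∀ (n : ℕ), 2 ≤ n → ∀ (T : ℝ) (A θ : MF n) (u : ℝ → EE n → ℝ), 0 < T → Frm A θ →
  (∀ x, x ≠ 0 → RcF A θ x 0) → HeatOn (Set.Ico 0 T) (fun _ => A) (fun _ => θ) u →
  (∀ x, x ≠ 0 → ggf A (u 0) (u 0) x ≤ 1) →
  ∀ t, 0 < t → t < T → ∀ x, x ≠ 0 → ggf A (u t) (u t) x ≤ 1 ∧ t * Lapf A θ (u t) x ^ 2 ≤ n + 1

/-- CUT at the function level -/
def CutF : Prop := ∀ (n : ℕ), 2 ≤ n → ∀ (T : ℝ) (A θ : MF n) (u w : ℝ → EE n → ℝ), 0 < T → Frm A θ →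
  (∀ x, x ≠ 0 → RcF A θ x 0) → ∀ k c0 : ℝ, 0 < k →
  HeatOn (Set.Ico 0 T) (fun _ => A) (fun _ => θ) u → HeatOn (Set.Ico 0 T) (fun _ => A) (fun _ => θ) w →
  (∀ x, x ≠ 0 → ggf A (u 0) (u 0) x ≤ 1) → (∀ x, x ≠ 0 → ggf A (w 0) (w 0) x ≤ 1) →
  (∀ t, 0 < t → t < T → k * t ≤ 1 → ∀ x, x ≠ 0 → w t x ≤ c0 → RcF A θ x k) →
  ∀ t, 0 < t → t < T → k * t ≤ 1 → ∀ x, x ≠ 0 →
    ggf A (u t) (u t) x ≤ Real.exp (-(2 * k * t)) + Real.exp (Real.sqrt k * (w t x - c0) + k * t)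

/-- HRN at the function level -/
def HrnF : Prop := ∀ (n : ℕ), 4 ≤ n → ∀ l > 0, ∃ η > 0, ∀ (T l0 : ℝ) (A θ : ℝ → MF n), 0 < T → 0 < l0 →
  FFlow (Set.Icc 0 T) A θ →
  (∀ t, 0 ≤ t → t ≤ T → ∀ x, x ≠ 0 → l0 ≤ lamf (A t) (θ t) x) →
  (∀ t, 0 < t → t < T → ∀ x, x ≠ 0 → FGx (A t) (θ t) x) →
  ∀ ε K b : ℝ, 0 < ε → 0 < K → 0 ≤ b →
  (∀ t, 0 < t → t < T → ∀ x, x ≠ 0 → SfCx (A t) (θ t) ε K b x) →
  ∀ (τ : ℝ) (y : EE n), 0 < τ → τ < T → y ≠ 0 → τ * lamf (A τ) (θ τ) y = 1 →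
  (∃ ι, Iso (fun a => nfc (A τ) a y) ι ∧ ∃ z' w' : Fin n → ℂ, qf (Id4 n) z' w' ≠ 0 ∧
    (ε * lamf (A τ) (θ τ) y + K * b + K ^ 2 * b ^ 2 / ε * τ) * qf (Id4 n) z' w'
      + K * qf (pull ι (fun a b c d => Rf (A τ) (θ τ) a b c d y)) z' w'
      ≤ η * lamf (A τ) (θ τ) y * qf (Id4 n) z' w') →
  ∃ h : EE n → ℝ, Sm h ∧ (∀ x, x ≠ 0 → ggf (A τ) h h x ≤ 1) ∧ h y ≤ 0 ∧
    ∀ x, x ≠ 0 → h x ≤ l * Real.sqrt τ → 1 / (10 * τ) ≤ lamf (A τ) (θ τ) x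

end Pool.Agent.Helper36.FLG
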