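import Pool.Agent.Helper36.FLG.StatF

/-!
# Project FLG: the heat solutions with initial values `ζ`, `ζ²`, and the Harnack inequality at the function level
-/

set_option autoImplicit false

namespace Pool.Agent.Helper36.FLG

open Finset Pool.Agent.Helper47.RFn Pool.Agent.Helper67.RFn.Nro
open Pool.Agent.Helper47.FLG hiding rot
open Pool.Agent.Helper47.RFn.FLBp
open Pool.Agent.Helper73.RFn (JsmStmt FhmStmt FjsStmt HjsStmt JsrStmt)

variable {n : ℕ} {T : ℝ}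

theorem smfam_mono {I J : Set ℝ} (hJ : J ⊆ I) {f : ℝ → EE n → ℝ} (h : SmFam I f) : SmFam J f :=
  ⟨fun t ht => h.sm t (hJ ht), fun w => (h.cont w).mono (Set.prod_mono hJ subset_rfl)⟩

theorem smfam1_mono {I J : Set ℝ} (hJ : J ⊆ I) {f f' : ℝ → EE n → ℝ} (h : SmFam1 I f f') : SmFam1 J f f' :=
  ⟨smfam_mono hJ h.fam, smfam_mono hJ h.fam', fun w x hx t ht => (h.der w x hx t (hJ ht)).mono hJ⟩

theorem fflow_mono {I J : Set ℝ} (hJ : J ⊆ I) {A θ : ℝ → MF n} (h : FFlow I A θ) : FFlow J A θ :=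
  ⟨fun t ht => h.inv t (hJ ht), fun t ht => h.nA t (hJ ht), fun a i => smfam1_mono hJ (h.flA a i),
    fun i a => smfam1_mono hJ (h.flt i a)⟩

/-- the function `ζ` -/
noncomputable def zet (A θ : ℝ → MF n) (τ t : ℝ) (x : EE n) : ℝ := 1 / (1 / lamf (A t) (θ t) x + 2 * (t + τ))

/-- `ζ` is a smooth family on `[0,T]` -/
theorem zet_fam (h8 : Goal_C8) (hFHM : FhmStmt) {A θ : ℝ → MF n} (hF : FFlow (Set.Icc 0 T) A θ)
    (hl : ∀ t, 0 ≤ t → t ≤ T → ∀ x, x ≠ 0 → 0 < lamf (A t) (θ t) x) {τ : ℝ} (hτ : 0 < τ) :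
    SmFam (Set.Icc 0 T) (zet A θ τ) := by
  obtain ⟨c1, c2, c3, c4, c5, c6, c7, c8, c9, c10⟩ := h8 n (Set.Icc 0 T)
  obtain ⟨-, -, -, fl, -⟩ := (hFHM n).2 (Set.Icc 0 T) A θ hF
  have hinv : ContDiffOn ℝ oo (fun y : ℝ => 1 / y) (Set.Ioi 0) :=
    contDiffOn_const.div contDiffOn_id fun y hy => ne_of_gt hy
  have h1 : SmFam (Set.Icc 0 T) (fun t x => 1 / lamf (A t) (θ t) x) :=
    c7 _ (fun y => 1 / y) (Set.Ioi 0) isOpen_Ioi hinv fl fun t ht x hx => hl t ht.1 ht.2 x hx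
  have h2 : SmFam (Set.Icc 0 T) (fun t (_ : EE n) => 2 * (t + τ)) :=
    c1 (fun t => 2 * (t + τ)) (by fun_prop)
  have h3 := c2 _ _ h1 h2
  exact c7 _ (fun y => 1 / y) (Set.Ioi 0) isOpen_Ioi hinv h3 fun t ht x hx => by
    have := hl t ht.1 ht.2 x hx
    have h0 := ht.1
    show 0 < 1 / lamf (A t) (θ t) x + 2 * (t + τ)
    positivity

/-- `ζ` is jointly smooth -/
theorem zet_js {A θ : ℝ → MF n} (hj : Pool.Agent.Helper47.RFn.JS T (fun t => lamf (A t) (θ t)))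
    (hl : ∀ t, 0 < t → t < T → ∀ x, x ≠ 0 → 0 < lamf (A t) (θ t) x) {τ : ℝ} (hτ : 0 < τ) :
    Pool.Agent.Helper47.RFn.JS T (zet A θ τ) := by
  refine ⟨?_, fun t h0 h1 r x hr => ?_⟩
  · have h1 : ContDiffOn ℝ oo (fun p : EE n × ℝ => 1 / lamf (A p.2) (θ p.2) p.1)
        {p | p.1 ≠ 0 ∧ 0 < p.2 ∧ p.2 < T} :=
      contDiffOn_const.div hj.cd fun p hp => ne_of_gt (hl p.2 hp.2.1 hp.2.2 p.1 hp.1)
    have h2 : ContDiffOn ℝ oo (fun p : EE n × ℝ => 2 * (p.2 + τ)) {p | p.1 ≠ 0 ∧ 0 < p.2 ∧ p.2 < T} :=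
      contDiffOn_const.mul (contDiffOn_snd.add contDiffOn_const)
    refine contDiffOn_const.div (h1.add h2) fun p hp => ?_
    have := hl p.2 hp.2.1 hp.2.2 p.1 hp.1
    have h3 := hp.2.1
    exact ne_of_gt (by positivity)
  · show zet A θ τ t (r • x) = zet A θ τ t x
    unfold zet
    rw [hj.hom t h0 h1 r x hr]

/-- data of the bundle of a flow on `[0,T]` -/
structure FlD (M : Mod n T) (A θ : ℝ → MF n) : Prop where
  full : (M.flB A θ).Full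
  rf : (M.flB A θ).IsRF
  lam : ∀ (z : M.Z) (t : TI T), (M.flB A θ).ev z t (M.flB A θ).lam = lamf (A t) (θ t) (M.pt z)
  nu : ∀ (z : M.Z) (t : TI T) (a : Ix n), (M.flB A θ).ev z t ((M.flB A θ).nu a) = ∑ b, M.fr z a b * nfc (A t) b (M.pt z)
  R : ∀ (z : M.Z) (t : TI T) (a b c d : Ix n), (M.flB A θ).ev z t ((M.flB A θ).R a b c d)
    = ∑ i, ∑ j, ∑ k, ∑ l, M.fr z a i * M.fr z b j * M.fr z c k * M.fr z d l * Rf (A t) (θ t) i j k l (M.pt z)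
  em : ∀ v : ℝ → EE n → ℝ, Pool.Agent.Helper47.RFn.JS T v → (M.flB A θ).VI (M.em v) ∧
    ∀ (z : M.Z) (t : TI T), (M.flB A θ).ev z t (M.em v) = v t (M.pt z) ∧
      (M.flB A θ).ev z t ((M.flB A θ).Lap (M.em v)) = Lapf (A t) (θ t) (v t) (M.pt z)
  ini : ∀ v : ℝ → EE n → ℝ, Pool.Agent.Helper47.RFn.JS T v → SmFam (Set.Ico 0 T) v →
    (M.flB A θ).Bd0 ((M.flB A θ).gg (M.em v) (M.em v))
  jl : Pool.Agent.Helper47.RFn.JS T (fun t => lamf (A t) (θ t))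

theorem flD (hEM : Goal_EM) (hLNK : Goal_LNK) (hFLB : Goal_FLB) (h8 : Goal_C8) (hFJS : FjsStmt)
    (hT : 0 < T) {M : Mod n T} (hM : M.Ax) {A θ : ℝ → MF n} (hF : FFlow (Set.Icc 0 T) A θ) : FlD M A θ := by
  have hF' : FFlow (Set.Ico 0 T) A θ := fflow_mono Set.Ico_subset_Icc_self hF
  have hI : Set.Ioo 0 T ⊆ Set.Ico 0 T := Set.Ioo_subset_Ico_self
  obtain ⟨jA, jt, -⟩ := hFJS n T (Set.Ico 0 T) A θ hT hI hF'
  have mA : MJ T A := fun i j => ⟨(jA i j).cd, (jA i j).hom⟩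
  have mt : MJ T θ := fun i j => ⟨(jt i j).cd, (jt i j).hom⟩
  obtain ⟨-, hfull, hrf, hd, hR, hnu, hl⟩ := hFLB n T hT M hM (Set.Ico 0 T) A θ hI hF' mA mt
  obtain ⟨em1, -⟩ := hEM n T hT M hM
  obtain ⟨-, -, -, -, l5, -⟩ := hLNK n T hT M hM A θ mA mt
  have c : Ctx M A θ := ⟨hT, hM, fun a i => em_mem (mA a i) (hF'.flA a i).fam,
    fun i a => em_mem (mt i a) (hF'.flt i a).fam⟩
  refine ⟨hfull, hrf, fun z t => (hd z t).1, hnu, hR, fun v hv => ⟨(hl v v hv hv).1, fun z t =>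
    ⟨(em1 v hv).2 z t, ((hl v v hv hv).2 z t).2⟩⟩, fun v hv hs => ?_, ?_⟩
  · have hk : M.em v ∈ KS M := em_mem hv hs
    exact c.bd hEM (c.gg hEM h8 hk hk)
  · exact js_cmul (1 / (n : ℝ)) (js_sum univ fun a _ => (l5 a a).1)

/-- the difference of two families with equal initial values -/
theorem ini_sub (h8 : Goal_C8) (hT : 0 < T) {M : Mod n T} (hM : M.Ax) {A θ : ℝ → MF n} {f g : M.B}
    {v w : ℝ → EE n → ℝ} (hf : ∀ (z : M.Z) (t : TI T), M.ev z t f = v t (M.pt z))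
    (hg : ∀ (z : M.Z) (t : TI T), M.ev z t g = w t (M.pt z)) (hv : SmFam (Set.Ico 0 T) v)
    (hw : SmFam (Set.Ico 0 T) w) (h0 : ∀ x, x ≠ 0 → v 0 x = w 0 x) : (M.flB A θ).Ini (f - g) 0 := by
  obtain ⟨c1, c2, c3, c4, c5, c6, c7, c8, c9, c10⟩ := h8 n (Set.Ico 0 T)
  refine exH_ini (f := (f - g : M.B)) (M := M) (h := fun p => v p.2 (M.pt p.1) - w p.2 (M.pt p.1)) hT
    ⟨fam_ct hM (c3 _ _ hv hw), fun z t => ?_⟩ fun z => ?_
  · rw [map_sub, hf, hg]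
    rfl
  · show 0 ≤ v 0 (M.pt z) - w 0 (M.pt z)
    rw [h0 _ (pt_ne hM z), sub_self]

/-- the element of a solution of the heat equation along a flow -/
theorem fl_heat (hEM : Goal_EM) {M : Mod n T} (hT : 0 < T) (hM : M.Ax) {A θ : ℝ → MF n} (h : FlD M A θ)
    {u : ℝ → EE n → ℝ} (ju : Pool.Agent.Helper47.RFn.JS T u) (hH : HeatOn (Set.Ico 0 T) A θ u) :
    (M.flB A θ).D (M.em u) = (M.flB A θ).Lap (M.em u) := by
  obtain ⟨-, -, -, em4, -, -⟩ := hEM n T hT M hM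
  refine h.full.ext _ _ fun z t => ?_
  rw [((h.em u ju).2 z t).2]
  refine em4 u (fun t => Lapf (A t) (θ t) (u t)) ju ?_ z t
  intro t x ht1 ht2 hx
  have := hH.der [] x hx t ⟨ht1.le, ht2⟩
  exact this.hasDerivAt (Ico_mem_nhds ht1 ht2)

/-- existence of the heat solutions with initial values `ζ` and `ζ²` -/
theorem hzEx (hEM : Goal_EM) (h8 : Goal_C8) (hHJS : HjsStmt) (hFHM : FhmStmt) (hHE : HeatExStmt) (hn : 2 ≤ n)
    (hT : 0 < T) {M : Mod n T} (hM : M.Ax) {A θ : ℝ → MF n} (hF : FFlow (Set.Icc 0 T) A θ) (h : FlD M A θ)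
    (hl : ∀ t, 0 ≤ t → t ≤ T → ∀ x, x ≠ 0 → 0 < lamf (A t) (θ t) x) {τ : ℝ} (hτ : 0 < τ) :
    ∃ ze u zz : M.B, Hz (M.flB A θ) τ ze u zz := by
  have hF' : FFlow (Set.Ico 0 T) A θ := fflow_mono Set.Ico_subset_Icc_self hF
  have hz1 := zet_fam h8 hFHM hF hl hτ
  have hz2 := smfam_mono Set.Ico_subset_Icc_self hz1
  have jz : Pool.Agent.Helper47.RFn.JS T (zet A θ τ) := zet_js h.jl (fun t h0 h1 => hl t h0.le h1.le) hτ
  obtain ⟨-, -, -, c4, -⟩ := h8 n (Set.Ico 0 T)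
  have hz0 : Sm (zet A θ τ 0) := hz1.sm 0 ⟨le_rfl, hT.le⟩
  have hz0' : Sm (fun x => zet A θ τ 0 x * zet A θ τ 0 x) :=
    (c4 _ _ hz2 hz2).sm 0 ⟨le_rfl, hT⟩
  obtain ⟨u, hu, hu0⟩ := hHE n hn T A θ hT hF _ hz0
  obtain ⟨w, hw, hw0⟩ := hHE n hn T A θ hT hF _ hz0'
  have hu' : HeatOn (Set.Ico 0 T) A θ u := smfam1_mono Set.Ico_subset_Icc_self hu
  have hw' : HeatOn (Set.Ico 0 T) A θ w := smfam1_mono Set.Ico_subset_Icc_self hw
  have ju' := hHJS n T A θ u hT hF' hu'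
  have jw' := hHJS n T A θ w hT hF' hw'
  have ju : Pool.Agent.Helper47.RFn.JS T u := ⟨ju'.cd, ju'.hom⟩
  have jw : Pool.Agent.Helper47.RFn.JS T w := ⟨jw'.cd, jw'.hom⟩
  have ez : ∀ (z : M.Z) (t : TI T), M.ev z t (M.em (zet A θ τ)) = zet A θ τ t (M.pt z) := fun z t => ((h.em _ jz).2 z t).1
  have eu : ∀ (z : M.Z) (t : TI T), M.ev z t (M.em u) = u t (M.pt z) := fun z t => ((h.em _ ju).2 z t).1
  have ew : ∀ (z : M.Z) (t : TI T), M.ev z t (M.em w) = w t (M.pt z) := fun z t => ((h.em _ jw).2 z t).1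
  have ez2 : ∀ (z : M.Z) (t : TI T), M.ev z t (M.em (zet A θ τ) ^ 2) =
      (fun (t : ℝ) x => zet A θ τ t x * zet A θ τ t x) t (M.pt z) := by
    intro z t
    rw [pow_two, map_mul, ez]
  refine ⟨M.em (zet A θ τ), M.em u, M.em w, ?_, (h.em u ju).1, (h.em w jw).1, fl_heat hEM hT hM h ju hu',
    fl_heat hEM hT hM h jw hw', ?_, ?_, ?_, ?_, h.ini u ju hu'.fam, h.ini w jw hw'.fam⟩
  · intro z t
    rw [h.lam z t]
    exact ez z t
  · exact ini_sub h8 hT hM eu ez hu'.fam hz2 hu0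
  · exact ini_sub h8 hT hM ez eu hz2 hu'.fam fun x hx => (hu0 x hx).symm
  · exact ini_sub (w := fun t x => zet A θ τ t x * zet A θ τ t x) h8 hT hM ew ez2 hw'.fam (c4 _ _ hz2 hz2) hw0
  · exact ini_sub (v := fun t x => zet A θ τ t x * zet A θ τ t x) h8 hT hM ez2 ew (c4 _ _ hz2 hz2) hw'.fam
      fun x hx => (hw0 x hx).symm

theorem rv_rot {M : Mod n T} {A θ : ℝ → MF n} (h : FlD M A θ) (z : M.Z) (t : TI T) :
    (M.flB A θ).rv z t = rot (M.fr z) (fun i j k l => Rf (A t) (θ t) i j k l (M.pt z)) := by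
  funext a b k d
  refine (h.R z t a b k d).trans ?_
  unfold rot
  exact Finset.sum_congr rfl fun i _ => Finset.sum_congr rfl fun j _ =>
    Finset.sum_congr rfl fun k' _ => Finset.sum_congr rfl fun l _ => by ring

theorem nv_rot {M : Mod n T} {A θ : ℝ → MF n} (h : FlD M A θ) (z : M.Z) (t : TI T) :
    (M.flB A θ).nv z t = rotv (M.fr z) (fun a => nfc (A t) a (M.pt z)) := by
  funext a
  exact h.nu z t a

theorem rot_one (R : T4 (n + 1)) : rot one R = R := by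
  funext a b c d
  unfold rot one
  simp

theorem rotv_one (v : Ix n → ℝ) : rotv one v = v := by
  funext a
  unfold rotv one
  simp

/-- passage from `x` to a point of the bundle over `x` -/
theorem up {M : Mod n T} (hM : M.Ax) {A θ : ℝ → MF n} (h : FlD M A θ) {z : M.Z} {t : TI T}
    (hn1 : ∑ a, nfc (A t) a (M.pt z) ^ 2 = 1) {ι : Ix n → Fin n → ℝ} (hι : Iso ((M.flB A θ).nv z t) ι) :
    ∃ ι', Iso (fun a => nfc (A t) a (M.pt z)) ι' ∧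
      pull ι ((M.flB A θ).rv z t) = pull ι' (fun i j k l => Rf (A t) (θ t) i j k l (M.pt z)) := by
  rw [nv_rot h] at hι
  refine ⟨_, iso_rot (hM.frO z) hn1 hι, ?_⟩
  rw [rv_rot h, pull_rot]

/-- gradient of the restriction of an invariant element -/
theorem grad_at1 (hATO : Goal_ATO) (hT : 0 < T) {M : Mod n T} (hM : M.Ax) {A θ : ℝ → MF n} {I : Set ℝ}
    (hI : Set.Ioo 0 T ⊆ I) (hF : FFlow I A θ) (mA : MJ T A) (mt : MJ T θ) {f : M.B} (hf : (M.flB A θ).VI f)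
    (z : M.Z) (hz : M.fr z = one) (t : TI T) :
    ggf (A t) (M.at1 f t) (M.at1 f t) (M.pt z) = (M.flB A θ).ev z t ((M.flB A θ).gg f f) := by
  obtain ⟨a1, -, a3, -, -, a6⟩ := hATO n T hT M hM
  obtain ⟨-, -, b3, -⟩ := a6 I A θ hI hF mA mt
  have hx := pt_ne hM z
  have h0 : M.at1 (0 : M.B) t (M.pt z) = 0 := by
    have := a3 0 f t (M.pt z) t.2.1 t.2.2 hx
    rw [zero_smul, zero_mul] at this
    exact this
  have hed : ∀ i, ed i (M.at1 f t) (M.pt z) = ∑ b, θ t (M.pt z) i b * (M.flB A θ).ev z t ((M.flB A θ).H b f) := by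
    intro i
    rw [b3 f i t (M.pt z) t.2.1 t.2.2 hx]
    refine sum_congr rfl fun b _ => ?_
    have hV : ∀ c d, M.at1 (M.V c d f) t (M.pt z) = 0 := by
      intro c d
      have h1 : M.V c d f = 0 := hf c d
      rw [h1]
      exact h0
    have hH : M.at1 ((M.flB A θ).H b f) t (M.pt z) = (M.flB A θ).ev z t ((M.flB A θ).H b f) :=
      ((a1 ((M.flB A θ).H b f)).2.1 z t hz).symm
    rw [hH]
    simp only [hV, mul_zero, sum_const_zero, sub_zero]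
  have hFd : ∀ a, Fdc (A t) a (M.at1 f t) (M.pt z) = (M.flB A θ).ev z t ((M.flB A θ).H a f) := by
    intro a
    unfold Fdc
    simp only [hed, mul_sum]
    rw [sum_comm]
    have h1 : ∀ b, (∑ i, A t (M.pt z) a i * (θ t (M.pt z) i b * (M.flB A θ).ev z t ((M.flB A θ).H b f))) =
        (if a = b then 1 else 0) * (M.flB A θ).ev z t ((M.flB A θ).H b f) := by
      intro b
      have h2 := congrFun (congrFun (hF.inv t (hI t.2) (M.pt z)) a) b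
      rw [Matrix.mul_apply, Matrix.one_apply] at h2
      rw [← h2, sum_mul]
      exact sum_congr rfl fun i _ => by ring
    simp only [h1]
    simp
  unfold ggf
  simp only [hFd]
  refine Eq.symm ((map_sum ((M.flB A θ).ev z t) _ _).trans ?_)
  exact sum_congr rfl fun a _ => map_mul _ _ _

theorem hrnF (hMOD : Goal_MOD) (hEM : Goal_EM) (hLNK : Goal_LNK) (hFLB : Goal_FLB) (hATO : Goal_ATO)
    (h8 : Goal_C8) (hFJS : FjsStmt) (hHJS : HjsStmt) (hFHM : FhmStmt) (hFRF : Goal_FRF) (hJSR : JsrStmt)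
    (hHE : HeatExStmt) (hHRN : G_HRN) : HrnF := by
  intro n hn l hl
  obtain ⟨η, hη, hH⟩ := hHRN n hn l hl
  refine ⟨η, hη, ?_⟩
  intro T l0 A θ hT hl0 hF hlam hFG ε K b hε hK hb hS τ y hτ0 hτT hy hy1 hcond
  obtain ⟨M, hM⟩ := hMOD n T hT
  have hI : Set.Ioo 0 T ⊆ Set.Ico 0 T := Set.Ioo_subset_Ico_self
  have hF' : FFlow (Set.Ico 0 T) A θ := fflow_mono Set.Ico_subset_Icc_self hF
  obtain ⟨jA, jt, -⟩ := hFJS n T (Set.Ico 0 T) A θ hT hI hF'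
  have mA : MJ T A := fun i j => ⟨(jA i j).cd, (jA i j).hom⟩
  have mt : MJ T θ := fun i j => ⟨(jt i j).cd, (jt i j).hom⟩
  have h := flD hEM hLNK hFLB h8 hFJS hT hM hF
  have hpt : ∀ z, M.pt z ≠ 0 := pt_ne hM
  have hFr : ∀ t : TI T, Frm (A t) (θ t) := fun t => ((hFHM n).2 (Set.Ico 0 T) A θ hF').1 t ⟨t.2.1.le, t.2.2⟩
  have hn1 : ∀ (t : TI T) (x : EE n), x ≠ 0 → ∑ a, nfc (A t) a x ^ 2 = 1 := by
    intro t
    obtain ⟨-, -, -, -, -, -, -, -, -, -, -, -, hn1, -⟩ := hFRF n (A t) (θ t) (hFr t)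
    exact hn1
  have hFGa : FGa (M.flB A θ) := by
    intro z t ι hι
    obtain ⟨ι', h1, h2⟩ := up hM h (hn1 t _ (hpt z)) hι
    rw [h2]
    exact hFG t t.2.1 t.2.2 _ (hpt z) ι' h1
  have hSf : SfC (M.flB A θ) ε K b := by
    intro z t ι hι z' w'
    obtain ⟨ι', h1, h2⟩ := up hM h (hn1 t _ (hpt z)) hι
    rw [h2, h.lam z t]
    exact hS t t.2.1 t.2.2 _ (hpt z) ι' h1 z' w'
  have hl0' : ∀ (z : (M.flB A θ).Z) (t : TI T), l0 ≤ (M.flB A θ).ev z t (M.flB A θ).lam := by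
    intro z t
    rw [h.lam z t]
    exact hlam t t.2.1.le t.2.2.le _ (hpt z)
  obtain ⟨ze, u, zz, hz⟩ := hzEx hEM h8 hHJS hFHM hHE (by omega) hT hM hF h
    (fun t h0 h1 x hx => hl0.trans_le (hlam t h0 h1 x hx)) hτ0
  obtain ⟨-, -, -, sR, -, sl, -, -, sn, -, sg, -⟩ := (hFHM n).1 (A τ) (θ τ) (hFr ⟨τ, hτ0, hτT⟩)
  obtain ⟨zy, hzy, hzy1⟩ := pt_surj hM y hy
  have hr : 0 < ‖y‖⁻¹ := inv_pos.2 (norm_pos_iff.2 hy)
  have hnv : (M.flB A θ).nv zy (⟨τ, hτ0, hτT⟩ : TI T) = fun a => nfc (A τ) a y := by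
    rw [nv_rot h, hzy1, rotv_one, hzy]
    funext a
    exact (sn a).hom _ _ hr
  have hrv : (M.flB A θ).rv zy (⟨τ, hτ0, hτT⟩ : TI T) = fun a b c d => Rf (A τ) (θ τ) a b c d y := by
    rw [rv_rot h, hzy1, rot_one, hzy]
    funext a b c d
    exact (sR a b c d).hom _ _ hr
  have hly : (M.flB A θ).ev zy (⟨τ, hτ0, hτT⟩ : TI T) (M.flB A θ).lam = lamf (A τ) (θ τ) y := by
    rw [h.lam, hzy]
    exact sl.hom _ _ hr
  obtain ⟨hb', hVI, hgg, hhy, hhb⟩ := hH T (M.flB A θ) h.full h.rf l0 hl0 hl0' hFGa ε K b hε hK hb hSf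
    ⟨τ, hτ0, hτT⟩ zy (by rw [hly]; exact hy1) (by
      rw [hnv, hrv, hly]
      exact hcond) ze u zz hz
  obtain ⟨a1, -⟩ := hATO n T hT M hM
  obtain ⟨hj, hat, -⟩ := a1 hb'
  obtain ⟨-, -, -, -, -, -, -, -, j8, -⟩ := hJSR n T
  have hSm : Sm (M.at1 hb' τ) := j8 (M.at1 hb') ⟨hj.cd, hj.hom⟩ τ hτ0 hτT
  refine ⟨M.at1 hb' τ, hSm, fun x hx => ?_, ?_, fun x hx hxl => ?_⟩
  · obtain ⟨z, hzx, hz1⟩ := pt_surj hM x hx
    have hrx : 0 < ‖x‖⁻¹ := inv_pos.2 (norm_pos_iff.2 hx)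
    have e1 := grad_at1 hATO hT hM hI hF' mA mt hVI z hz1 (⟨τ, hτ0, hτT⟩ : TI T)
    have e2 : ggf (A τ) (M.at1 hb' τ) (M.at1 hb' τ) (M.pt z) = ggf (A τ) (M.at1 hb' τ) (M.at1 hb' τ) x := by
      rw [hzx]
      exact ((sg _ _ hSm hSm).1.hom) _ _ hrx
    rw [← e2]
    refine (le_of_eq e1).trans (hgg z)
  · have e1 := hat zy (⟨τ, hτ0, hτT⟩ : TI T) hzy1
    rw [hzy] at e1
    have e2 : M.at1 hb' τ (‖y‖⁻¹ • y) = M.at1 hb' τ y := hSm.hom _ _ hr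
    rw [← e2]
    exact (le_of_eq e1.symm).trans hhy
  · obtain ⟨z, hzx, hz1⟩ := pt_surj hM x hx
    have hrx : 0 < ‖x‖⁻¹ := inv_pos.2 (norm_pos_iff.2 hx)
    have e1 := hat z (⟨τ, hτ0, hτT⟩ : TI T) hz1
    rw [hzx] at e1
    have e2 : M.at1 hb' τ (‖x‖⁻¹ • x) = M.at1 hb' τ x := hSm.hom _ _ hrx
    have e3 := hhb z ((le_of_eq (e1.trans e2)).trans hxl)
    refine e3.trans (le_of_eq ?_)
    rw [h.lam, hzx]
    exact sl.hom _ _ hrx

end Pool.Agent.Helper36.FLG
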