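import Pool.Agent.Helper36.FLG.FnGoals
import Pool.Agent.Helper67.RFn.NRO
import Pool.Agent.Helper62.RFn.FLB
import Pool.Agent.Helper32.RFn.HJS

/-!
# Project FLG: the frame bundle of a static metric
-/

set_option autoImplicit false

namespace Pool.Agent.Helper36.FLG

open Finset Pool.Agent.Helper47.RFn Pool.Agent.Helper47.FLG Pool.Agent.Helper67.RFn.Nro
open Pool.Agent.Helper47.RFn.FLBp

variable {n : ℕ} {T : ℝ}

/-- the frame bundle of a static metric -/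
noncomputable def stB (M : Mod n T) (A θ : MF n) : FB n T :=
  M.toBA.toFB (M.emM (fun _ => A)) (M.emM (fun _ => θ)) (fun _ _ => 0)

/-- constant families are jointly smooth -/
theorem js_const {f : EE n → ℝ} (hf : Sm f) : Pool.Agent.Helper47.RFn.JS T (fun _ => f) := by
  refine ⟨?_, fun t _ _ => hf.hom⟩
  exact hf.cd.comp contDiffOn_fst fun p hp => hp.1

theorem ew_zero (h2 : Goal_C2) (w : List (Fin (n + 1))) (x : EE n) : Ew w (fun _ => (0 : ℝ)) x = 0 := by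
  induction w generalizing x with
  | nil => rfl
  | cons i w ih =>
    have : Ew w (fun _ : EE n => (0 : ℝ)) = fun _ => 0 := funext ih
    show ed i (Ew w (fun _ : EE n => (0 : ℝ))) x = 0
    rw [this]
    exact (h2 n).1 i 0 x

/-- constant families -/
theorem smfam1_const (h2 : Goal_C2) (h8 : Goal_C8) {I : Set ℝ} {f : EE n → ℝ} (hf : Sm f) :
    SmFam1 I (fun _ => f) (fun _ _ => 0) := by
  obtain ⟨c1, -, -, -, -, -, -, -, -, c10⟩ := h8 n I
  refine ⟨c10 f hf, c1 (fun _ => 0) continuousOn_const, fun w x _ t _ => ?_⟩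
  show HasDerivWithinAt (fun _ => Ew w f x) (Ew w (fun _ => (0 : ℝ)) x) I t
  rw [ew_zero h2]
  exact hasDerivWithinAt_const t I _

section heat

open Pool.Agent.Helper73.RFn Pool.Agent.Helper32.RFn.HJS

variable {I : Set ℝ} {A θ : MF n} {u : ℝ → EE n → ℝ}

theorem cl_der (h8 : Goal_C8) (h2 : Goal_C2) (h9 : Goal_C9) (hF : Frm A θ)
    (hu : HeatOn I (fun _ => A) (fun _ => θ) u)
    (f : ℝ → EE n → ℝ) (hf : Cl I (fun _ => A) (fun _ => θ) u f) :
    ∃ f', Cl I (fun _ => A) (fun _ => θ) u f' ∧ SmFam1 I f f' := by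
  obtain ⟨c1, c2, c3, c4, c5, c6, -, -⟩ := h9 n I
  induction hf with
  | u => exact ⟨_, cl_Lapf, hu⟩
  | A a i => exact ⟨_, Cl.const 0, smfam1_const h2 h8 (hF.smA a i)⟩
  | th i a => exact ⟨_, Cl.const 0, smfam1_const h2 h8 (hF.smt i a)⟩
  | const c =>
    exact ⟨_, Cl.const 0, c1 (fun _ => c) (fun _ => 0) continuousOn_const continuousOn_const
      fun t _ => hasDerivWithinAt_const t I c⟩
  | rad i =>
    refine ⟨_, Cl.const 0, (h8 n I).2.2.2.2.2.2.2.2.1 i,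
      (h8 n I).1 (fun _ => 0) continuousOn_const, fun w x hx t ht => ?_⟩
    show HasDerivWithinAt (fun _ => Ew w (nn i) x) (Ew w (fun _ => (0 : ℝ)) x) I t
    rw [ew_zero h2]
    exact hasDerivWithinAt_const t I _
  | add f h _ _ ihf ihh =>
    obtain ⟨f', h1, h2⟩ := ihf
    obtain ⟨h', h3, h4⟩ := ihh
    exact ⟨_, Cl.add _ _ h1 h3, c2 _ _ _ _ h2 h4⟩
  | sub f h _ _ ihf ihh =>
    obtain ⟨f', h1, h2⟩ := ihf
    obtain ⟨h', h3, h4⟩ := ihh
    exact ⟨_, Cl.sub _ _ h1 h3, c3 _ _ _ _ h2 h4⟩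
  | mul f h kf kh ihf ihh =>
    obtain ⟨f', h1, h2⟩ := ihf
    obtain ⟨h', h3, h4⟩ := ihh
    exact ⟨_, Cl.add _ _ (Cl.mul _ _ h1 kh) (Cl.mul _ _ kf h3), c4 _ _ _ _ h2 h4⟩
  | neg f _ ihf =>
    obtain ⟨f', h1, h2⟩ := ihf
    exact ⟨_, Cl.neg _ h1, c5 _ _ h2⟩
  | ed i f _ ihf =>
    obtain ⟨f', h1, h2⟩ := ihf
    exact ⟨_, Cl.ed i _ h1, c6 _ _ i h2⟩

theorem cl_smInf (h8 : Goal_C8) (h2 : Goal_C2) (h9 : Goal_C9) (hF : Frm A θ)
    (hu : HeatOn I (fun _ => A) (fun _ => θ) u)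
    (f : ℝ → EE n → ℝ) (hf : Cl I (fun _ => A) (fun _ => θ) u f) :
    SmInf I f := by
  choose d hd using fun x : {f : ℝ → EE n → ℝ // Cl I (fun _ => A) (fun _ => θ) u f} =>
    cl_der h8 h2 h9 hF hu x.1 x.2
  let D : {f : ℝ → EE n → ℝ // Cl I (fun _ => A) (fun _ => θ) u f} →
      {f : ℝ → EE n → ℝ // Cl I (fun _ => A) (fun _ => θ) u f} := fun x => ⟨d x, (hd x).1⟩
  refine ⟨fun k => (D^[k] ⟨f, hf⟩).1, rfl, fun k => ?_⟩
  have h1 : (D^[k + 1] ⟨f, hf⟩) = D (D^[k] ⟨f, hf⟩) := Function.iterate_succ_apply' D k _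
  show SmFam1 I (D^[k] ⟨f, hf⟩).1 (D^[k + 1] ⟨f, hf⟩).1
  rw [h1]
  exact (hd _).2

/-- solutions of the static heat equation are jointly smooth -/
theorem js_heat (h2 : Goal_C2) (h8 : Goal_C8) (h9 : Goal_C9) (hJ : JsmStmt) (hF : Frm A θ)
    (hu : HeatOn (Set.Ico 0 T) (fun _ => A) (fun _ => θ) u) : Pool.Agent.Helper47.RFn.JS T u := by
  have h := hJ n T (Set.Ico 0 T) u Set.Ioo_subset_Ico_self (cl_smInf h8 h2 h9 hF hu u Cl.u)
  exact ⟨h.cd, h.hom⟩

end heat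

/-- everything about the bundle of a static metric -/
structure StD (M : Mod n T) (A θ : MF n) : Prop where
  full : (stB M A θ).Full
  S0 : ∀ i j, (stB M A θ).S i j = 0
  nu : ∀ (z : M.Z) (t : TI T) (a : Ix n), (stB M A θ).ev z t ((stB M A θ).nu a) =
    ∑ b, M.fr z a b * nfc A b (M.pt z)
  ric : ∀ (z : M.Z) (t : TI T) (i j : Ix n), (stB M A θ).ev z t ((stB M A θ).Ric i j) =
    ∑ a, ∑ b, M.fr z i a * M.fr z j b * Rcf A θ a b (M.pt z)
  fn : ∀ v w : ℝ → EE n → ℝ, Pool.Agent.Helper47.RFn.JS T v → Pool.Agent.Helper47.RFn.JS T w →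
    (stB M A θ).VI (M.em v) ∧ ∀ (z : M.Z) (t : TI T),
      (stB M A θ).ev z t (M.em v) = v t (M.pt z) ∧
      (stB M A θ).ev z t ((stB M A θ).gg (M.em v) (M.em w)) = ggf A (v t) (w t) (M.pt z) ∧
      (stB M A θ).ev z t ((stB M A θ).Lap (M.em v)) = Lapf A θ (v t) (M.pt z)
  ini : ∀ v : ℝ → EE n → ℝ, Pool.Agent.Helper47.RFn.JS T v → SmFam (Set.Ico 0 T) v →
    (stB M A θ).Bd0 ((stB M A θ).Lap (M.em v)) ∧
    ∀ c : ℝ, (∀ x, x ≠ 0 → ggf A (v 0) (v 0) x ≤ c) →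
      (stB M A θ).Ini (-(stB M A θ).gg (M.em v) (M.em v)) (-c)

theorem st_ini (hEM : Goal_EM) (h8 : Goal_C8) (hT : 0 < T) {M : Mod n T} (hM : M.Ax) {A θ : MF n}
    (hF : Frm A θ) (hg : ∀ v : ℝ → EE n → ℝ, Pool.Agent.Helper47.RFn.JS T v → ∀ (z : M.Z) (t : TI T),
      (stB M A θ).ev z t ((stB M A θ).gg (M.em v) (M.em v)) = ggf A (v t) (v t) (M.pt z))
    (v : ℝ → EE n → ℝ) (hv : Pool.Agent.Helper47.RFn.JS T v) (hs : SmFam (Set.Ico 0 T) v) :
    (stB M A θ).Bd0 ((stB M A θ).Lap (M.em v)) ∧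
    ∀ c : ℝ, (∀ x, x ≠ 0 → ggf A (v 0) (v 0) x ≤ c) →
      (stB M A θ).Ini (-(stB M A θ).gg (M.em v) (M.em v)) (-c) := by
  obtain ⟨c1, c2, c3, c4, c5, c6, c7, c8, c9, c10⟩ := h8 n (Set.Ico 0 T)
  have kA : ∀ a i, M.emM (fun _ => A) a i ∈ KS M := fun a i => em_mem (js_const (hF.smA a i)) (c10 _ (hF.smA a i))
  have kt : ∀ i a, M.emM (fun _ => θ) i a ∈ KS M := fun i a => em_mem (js_const (hF.smt i a)) (c10 _ (hF.smt i a))
  have hk : M.em v ∈ KS M := em_mem hv hs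
  have hH : ∀ (a : Ix n) (f : M.B), f ∈ KS M → (stB M A θ).H a f ∈ KS M := fun a f hf =>
    KS_H hM hEM h8 hT kA kt a hf
  have hbd : ∀ f : M.B, f ∈ KS M → (stB M A θ).Bd0 f := by
    intro f hf
    obtain ⟨h, hh⟩ := KS_ES hM hEM hT hf
    exact exH_bd0 hT hh
  refine ⟨hbd _ (m_s1 (S := KS M) (fun a => (stB M A θ).H a ((stB M A θ).H a (M.em v)))
    (fun a => hH a _ (hH a _ hk))), fun c hc => ?_⟩
  have hgf : SmFam (Set.Ico 0 T) (fun t => ggf A (v t) (v t)) := by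
    have h1 : ∀ a, SmFam (Set.Ico 0 T) (fun t => Fdc A a (v t)) := fun a =>
      c8 (Ix n) univ (fun i t x => A x a i * ed i (v t) x) fun i _ =>
        c4 (fun _ x => A x a i) (fun t => ed i (v t)) (c10 _ (hF.smA a i)) (c6 v i hs)
    exact c8 (Ix n) univ (fun a t x => Fdc A a (v t) x * Fdc A a (v t) x) fun a _ => c4 _ _ (h1 a) (h1 a)
  refine exH_ini (f := -((stB M A θ).gg (M.em v) (M.em v) : M.B)) (M := M)
    (h := fun p => -ggf A (v p.2) (v p.2) (M.pt p.1)) hT ⟨(fam_ct hM hgf).neg,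
      fun z t => ?_⟩ fun z => neg_le_neg (hc _ (pt_ne hM z))
  exact (map_neg (M.ev z t) _).trans (congrArg Neg.neg (hg v hv z t))

theorem stD (hEM : Goal_EM) (hLNK : Goal_LNK) (hE0 : Goal_E0) (hYOM : Goal_YOM) (hVIH : Goal_VIH)
    (h8 : Goal_C8) (hT : 0 < T) {M : Mod n T} (hM : M.Ax) {A θ : MF n} (hF : Frm A θ) : StD M A θ := by
  have hA : MJ T (fun _ => A) := fun a i => js_const (hF.smA a i)
  have ht : MJ T (fun _ => θ) := fun i a => js_const (hF.smt i a)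
  obtain ⟨em1, em2, em3, em4, em5, em6⟩ := hEM n T hT M hM
  obtain ⟨l1, l2, l3, l4, l5, l6⟩ := hLNK n T hT M hM (fun _ => A) (fun _ => θ) hA ht
  have hP := hM.ax
  obtain ⟨e1, e2, e3, -⟩ := hE0 n T M.toBA hP
  have hev : ∀ v : ℝ → EE n → ℝ, Pool.Agent.Helper47.RFn.JS T v → ∀ z (t : TI T), M.ev z t (M.em v) = v t (M.pt z) :=
    fun v hv => (em1 v hv).2
  have hinv' : ∀ x, θ x * A x = 1 := fun x => mul_eq_one_comm.1 (hF.inv x)
  have hAev : ∀ a i z (t : TI T), M.ev z t (M.emM (fun _ => A) a i) = A (M.pt z) a i := fun a i z t =>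
    hev _ (hA a i) z t
  have htev : ∀ i a z (t : TI T), M.ev z t (M.emM (fun _ => θ) i a) = θ (M.pt z) i a := fun i a z t =>
    hev _ (ht i a) z t
  have hRcev : ∀ a b z (t : TI T), M.ev z t (FR.Rc M.e M.n0 (M.emM (fun _ => A)) (M.emM (fun _ => θ)) a b)
      = Rcf A θ a b (M.pt z) := by
    intro a b z t
    rw [(l5 a b).2]
    exact hev _ (l5 a b).1 z t
  have hnfev : ∀ a z (t : TI T), M.ev z t (FR.nf M.n0 (M.emM (fun _ => A)) a) = nfc A a (M.pt z) := by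
    intro a z t
    rw [(l1 a).2]
    exact hev _ (l1 a).1 z t
  have hAt : ∀ a b, ∑ i, M.emM (fun _ => A) a i * M.emM (fun _ => θ) i b = if a = b then 1 else 0 := by
    intro a b
    apply hP.ext
    intro z t
    have h1 := ev_ite M z t a b
    refine Eq.trans ?_ h1.symm
    rw [map_sum, ← hF.inv (M.pt z), Matrix.mul_apply]
    refine sum_congr rfl fun i _ => ?_
    rw [map_mul, hAev, htev]
  have htA : ∀ i j, ∑ a, M.emM (fun _ => θ) i a * M.emM (fun _ => A) a j = if i = j then 1 else 0 := by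
    intro a b
    apply hP.ext
    intro z t
    have h1 := ev_ite M z t a b
    refine Eq.trans ?_ h1.symm
    rw [map_sum, ← hinv' (M.pt z), Matrix.mul_apply]
    refine sum_congr rfl fun i _ => ?_
    rw [map_mul, hAev, htev]
  have hnA : ∀ a, ∑ i, M.emM (fun _ => A) a i * M.n0 i = ∑ i, M.emM (fun _ => θ) i a * M.n0 i := by
    intro a
    apply hP.ext
    intro z t
    have h1 := hF.nA (M.pt z) a
    have hn : ∀ i, nn i (M.pt z) = M.pt z i := by
      intro i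
      unfold nn
      rw [hM.ptn z, div_one]
    rw [map_sum, map_sum]
    refine Eq.trans (Eq.trans ?_ h1) ?_
    · refine sum_congr rfl fun i _ => ?_
      rw [map_mul, hAev, hM.nev, hn]
    · refine sum_congr rfl fun i _ => ?_
      rw [map_mul, htev, hM.nev, hn]
  have hDA : ∀ a i, M.Dt (M.emM (fun _ => A) a i) = ∑ b, (0 : M.B) * M.emM (fun _ => A) b i := by
    intro a i
    apply hP.ext
    intro z t
    have h1 := em4 (fun _ x => A x a i) (fun _ _ => 0) (hA a i)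
      (fun t x _ _ _ => hasDerivAt_const t (A x a i)) z t
    refine Eq.trans h1 ?_
    simp
  have hXT0 : M.XT (0 : M.B) := by
    refine ⟨fun c d => ?_, fun c d => ?_⟩ <;> exact map_zero _
  have hFH : M.FH (M.emM (fun _ => A)) (M.emM (fun _ => θ)) (fun _ _ => 0) :=
    { XA := fun a i => (em1 _ (hA a i)).1
      Xt := fun i a => (em1 _ (ht i a)).1
      XS := fun _ _ => hXT0
      At := hAt
      tA := htA
      nA := hnA
      DA := hDA
      Ssy := fun _ _ => rfl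
      nS := fun _ => by simp }
  obtain ⟨hFull, -, -, hRic, -, -⟩ := hYOM n T M.toBA hP _ _ _ hFH
  have hFd : ∀ (v : ℝ → EE n → ℝ) (_ : Pool.Agent.Helper47.RFn.JS T v) a z (t : TI T),
      M.ev z t (FR.Fd M.e (M.emM (fun _ => A)) a (M.em v)) = Fdc A a (v t) (M.pt z) := by
    intro v hv a z t
    rw [(l6 a v hv).2]
    exact hev _ (l6 a v hv).1 z t
  have hgg : ∀ (v w : ℝ → EE n → ℝ), Pool.Agent.Helper47.RFn.JS T v → Pool.Agent.Helper47.RFn.JS T w → ∀ z (t : TI T),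
      M.ev z t ((stB M A θ).gg (M.em v) (M.em w)) = ggf A (v t) (w t) (M.pt z) := by
    intro v w hv hw z t
    have h1 := (hVIH n T M.toBA hP _ _ _ hFH (M.em v) (M.em w) (em1 v hv).1 (em1 w hw).1).2.2.1
    refine (congrArg (M.ev z t) h1).trans ?_
    refine Eq.trans (map_sum (M.ev z t) _ _) ?_
    unfold ggf
    refine sum_congr rfl fun b _ => ?_
    rw [map_mul, hFd v hv, hFd w hw]
  have hlap : ∀ (v : ℝ → EE n → ℝ), Pool.Agent.Helper47.RFn.JS T v → ∀ z (t : TI T),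
      M.ev z t ((stB M A θ).Lap (M.em v)) = Lapf A θ (v t) (M.pt z) := by
    intro v hv z t
    have h1 := (hVIH n T M.toBA hP _ _ _ hFH (M.em v) (M.em v) (em1 v hv).1 (em1 v hv).1).2.2.2
    refine (congrArg (M.ev z t) h1).trans ?_
    refine Eq.trans (map_sub (M.ev z t) _ _) ?_
    unfold Lapf
    refine congrArg₂ (fun a b : ℝ => a - b) ?_ ?_
    · refine Eq.trans (map_sum (M.ev z t) _ _) ?_
      refine sum_congr rfl fun b _ => ?_
      rw [(l6 b v hv).2]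
      exact hFd _ (l6 b v hv).1 b z t
    · refine Eq.trans (map_sum (M.ev z t) _ _) ?_
      refine sum_congr rfl fun b _ => ?_
      rw [map_sum]
      refine sum_congr rfl fun c _ => ?_
      rw [map_mul, hFd v hv, (l3 b b c).2]
      exact congrArg (fun r : ℝ => r * Fdc A c (v t) (M.pt z)) (hev _ (l3 b b c).1 z t)
  refine ⟨hFull, fun i j => ?_, ?_, ?_, ?_, ?_⟩
  · show (∑ a, ∑ b, M.u i a * M.u j b * (0 : M.B)) = 0
    simp
  · intro z t a
    show M.ev z t (∑ b, M.u a b * FR.nf M.n0 (M.emM (fun _ => A)) b) = _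
    simp only [map_sum, map_mul, hM.uev, hnfev]
  · intro z t i j
    refine (congrArg (M.ev z t) (hRic i j)).trans ?_
    simp only [map_sum, map_mul, hM.uev, hRcev]
  · intro v w hv hw
    exact ⟨(em1 v hv).1.2, fun z t => ⟨hev v hv z t, hgg v w hv hw z t, hlap v hv z t⟩⟩
  · exact st_ini hEM h8 hT hM hF fun v hv z t => hgg v v hv hv z t

end Pool.Agent.Helper36.FLG
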