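import Pool.Agent.Helper36.FLG.Stat
import Pool.Agent.Helper87.RFn.HEC

/-!
# Project FLG: the static heat equation at the function level
-/

set_option autoImplicit false

namespace Pool.Agent.Helper36.FLG

open Finset Pool.Agent.Helper47.RFn Pool.Agent.Helper47.FLG Pool.Agent.Helper67.RFn.Nro
open Pool.Agent.Helper73.RFn (JsmStmt FhmStmt)

variable {n : ℕ} {T : ℝ}

theorem rot_quad (u : Ix n → Ix n → ℝ) (S : Ix n → Ix n → ℝ) (v : Ix n → ℝ) :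
    ∑ i, ∑ j, (∑ a, ∑ b, u i a * u j b * S a b) * v i * v j =
      ∑ a, ∑ b, S a b * (∑ i, u i a * v i) * (∑ j, u j b * v j) := by
  have h1 : ∀ a b, S a b * (∑ i, u i a * v i) * (∑ j, u j b * v j) =
      ∑ i, ∑ j, u i a * u j b * S a b * (v i * v j) := by
    intro a b
    rw [mul_assoc, Finset.sum_mul_sum, Finset.mul_sum]
    refine sum_congr rfl fun i _ => ?_
    rw [Finset.mul_sum]
    exact sum_congr rfl fun j _ => by ring
  have h2 : ∀ i j, (∑ a, ∑ b, u i a * u j b * S a b) * v i * v j =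
      ∑ a, ∑ b, u i a * u j b * S a b * (v i * v j) := by
    intro i j
    rw [mul_assoc, Finset.sum_mul]
    exact sum_congr rfl fun a _ => Finset.sum_mul _ _ _
  simp only [h1, h2]
  calc (∑ i, ∑ j, ∑ a, ∑ b, u i a * u j b * S a b * (v i * v j))
      = ∑ i, ∑ a, ∑ j, ∑ b, u i a * u j b * S a b * (v i * v j) :=
        sum_congr rfl fun i _ => sum_comm
    _ = ∑ a, ∑ i, ∑ j, ∑ b, u i a * u j b * S a b * (v i * v j) := sum_comm
    _ = ∑ a, ∑ i, ∑ b, ∑ j, u i a * u j b * S a b * (v i * v j) :=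
        sum_congr rfl fun a _ => sum_congr rfl fun i _ => sum_comm
    _ = _ := sum_congr rfl fun a _ => sum_comm

theorem rcge {M : Mod n T} (hM : M.Ax) {A θ : MF n} (h : StD M A θ) {z : M.Z} {t : TI T} {k : ℝ}
    (hr : RcF A θ (M.pt z) k) : RcGe (stB M A θ) z t k := by
  intro v
  have hu := hM.frO z
  have e1 : ∑ i, ∑ j, (stB M A θ).ev z t ((stB M A θ).Ric i j) * v i * v j =
      ∑ a, ∑ b, Rcf A θ a b (M.pt z) * (∑ i, M.fr z i a * v i) * (∑ j, M.fr z j b * v j) := by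
    rw [← rot_quad]
    exact sum_congr rfl fun i _ => sum_congr rfl fun j _ => by rw [h.ric z t i j]
  have e2 : nrm (fun a => ∑ i, M.fr z i a * v i) = nrm v := by
    have h3 := dot_u (u := fun i b => M.fr z b i) (fun b c => hu b c) v v
    unfold nrm
    have h4 : ∀ w : Ix n → ℝ, (∑ i, w i * w i) = ∑ i, w i ^ 2 := fun w => sum_congr rfl fun i _ => by ring
    first
      | exact h3
      | (rw [← h4, ← h4]; exact h3)
  have e3 : dot v ((stB M A θ).nv z t) = dot (fun a => ∑ i, M.fr z i a * v i) (fun a => nfc A a (M.pt z)) := by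
    unfold dot FB.nv
    have h5 : ∀ a, v a * (stB M A θ).ev z t ((stB M A θ).nu a) = ∑ b, M.fr z a b * v a * nfc A b (M.pt z) := by
      intro a
      rw [h.nu z t a, Finset.mul_sum]
      exact sum_congr rfl fun b _ => by ring
    simp only [h5]
    rw [sum_comm]
    exact sum_congr rfl fun b _ => by rw [Finset.sum_mul]
  rw [e1, e3, ← e2]
  exact hr _

/-- the element of a solution of the static heat equation -/
theorem st_heat (hEM : Goal_EM) {M : Mod n T} (hT : 0 < T) (hM : M.Ax) {A θ : MF n} (h : StD M A θ)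
    {u : ℝ → EE n → ℝ} (ju : Pool.Agent.Helper47.RFn.JS T u)
    (hH : HeatOn (Set.Ico 0 T) (fun _ => A) (fun _ => θ) u) :
    (stB M A θ).D (M.em u) = (stB M A θ).Lap (M.em u) := by
  obtain ⟨-, -, -, em4, -, -⟩ := hEM n T hT M hM
  refine h.full.ext _ _ fun z t => ?_
  rw [((h.fn u u ju ju).2 z t).2.2]
  refine em4 u (fun t => Lapf A θ (u t)) ju ?_ z t
  intro t x ht1 ht2 hx
  have := hH.der [] x hx t ⟨ht1.le, ht2⟩
  exact this.hasDerivAt (Ico_mem_nhds ht1 ht2)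

theorem pt_surj {M : Mod n T} (hM : M.Ax) (x : EE n) (hx : x ≠ 0) : ∃ z : M.Z, M.pt z = ‖x‖⁻¹ • x ∧ M.fr z = one := by
  have hn0 : 0 < ‖x‖ := norm_pos_iff.2 hx
  have hy : ‖(‖x‖⁻¹ • x : EE n)‖ = 1 := by
    rw [norm_smul, norm_inv, norm_norm, inv_mul_cancel₀ hn0.ne']
  exact hM.surj (‖x‖⁻¹ • x) one hy (Pool.Agent.Helper87.RFn.HEC.one_mem n)

theorem sthF (hMOD : Goal_MOD) (hEM : Goal_EM) (hLNK : Goal_LNK) (hE0 : Goal_E0) (hYOM : Goal_YOM)
    (hVIH : Goal_VIH) (h2 : Goal_C2) (h8 : Goal_C8) (h9 : Goal_C9) (hJ : JsmStmt) (hFHM : FhmStmt)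
    (hSTH : G_STH) : SthF := by
  intro n hn T A θ u hT hF hR hH hini t ht1 ht2 x hx
  obtain ⟨M, hM⟩ := hMOD n T hT
  have h := stD hEM hLNK hE0 hYOM hVIH h8 hT hM hF
  have ju := js_heat h2 h8 h9 hJ hF hH
  have hpt : ∀ z, M.pt z ≠ 0 := pt_ne hM
  have hfin := hSTH n hn T (stB M A θ) h.full h.S0 (fun z t => rcge hM h (hR _ (hpt z))) (M.em u)
    (h.fn u u ju ju).1 (st_heat hEM hT hM h ju hH) ((h.ini u ju hH.fam).2 1 hini) (h.ini u ju hH.fam).1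
  obtain ⟨-, -, -, -, -, -, -, -, -, hLs, hgs, -⟩ := (hFHM n).1 A θ hF
  have hus : Sm (u t) := hH.fam.sm t ⟨ht1.le, ht2⟩
  have hg : Hom0 (ggf A (u t) (u t)) := (hgs (u t) (u t) hus hus).1.hom
  have hL : Hom0 (Lapf A θ (u t)) := (hLs (u t) hus).1.hom
  have hn0 : 0 < ‖x‖ := norm_pos_iff.2 hx
  obtain ⟨z, hz, -⟩ := pt_surj hM x hx
  have hz' := hfin z ⟨t, ht1, ht2⟩
  obtain ⟨-, e1, e2⟩ := (h.fn u u ju ju).2 z ⟨t, ht1, ht2⟩
  rw [e1, e2, hz] at hz'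
  simp only at hz'
  rw [hg ‖x‖⁻¹ x (inv_pos.2 hn0), hL ‖x‖⁻¹ x (inv_pos.2 hn0)] at hz'
  exact hz'

theorem cutF (hMOD : Goal_MOD) (hEM : Goal_EM) (hLNK : Goal_LNK) (hE0 : Goal_E0) (hYOM : Goal_YOM)
    (hVIH : Goal_VIH) (h2 : Goal_C2) (h8 : Goal_C8) (h9 : Goal_C9) (hJ : JsmStmt) (hFHM : FhmStmt)
    (hSTH : G_STH) (hCUT : G_CUT) : CutF := by
  intro n hn T A θ u w hT hF hR k c0 hk hHu hHw hiu hiw hcut t ht1 ht2 hkt x hx
  obtain ⟨M, hM⟩ := hMOD n T hT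
  have h := stD hEM hLNK hE0 hYOM hVIH h8 hT hM hF
  have ju := js_heat h2 h8 h9 hJ hF hHu
  have jw := js_heat h2 h8 h9 hJ hF hHw
  have hpt : ∀ z, M.pt z ≠ 0 := pt_ne hM
  have hR' : ∀ z t, RcGe (stB M A θ) z t 0 := fun z t => rcge hM h (hR _ (hpt z))
  have h1 := hSTH n hn T (stB M A θ) h.full h.S0 hR' (M.em u) (h.fn u u ju ju).1
    (st_heat hEM hT hM h ju hHu) ((h.ini u ju hHu.fam).2 1 hiu) (h.ini u ju hHu.fam).1
  have h3 := hSTH n hn T (stB M A θ) h.full h.S0 hR' (M.em w) (h.fn w w jw jw).1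
    (st_heat hEM hT hM h jw hHw) ((h.ini w jw hHw.fam).2 1 hiw) (h.ini w jw hHw.fam).1
  have hfin := hCUT n hn T (stB M A θ) h.full h.S0 hR' k c0 hk (M.em u) (M.em w) (h.fn u u ju ju).1
    (h.fn w w jw jw).1 (st_heat hEM hT hM h ju hHu) (st_heat hEM hT hM h jw hHw)
    (fun z t => ⟨(h1 z t).1, (h3 z t).1⟩) (fun z t hkt' hw => by
      refine rcge hM h (hcut t t.2.1 t.2.2 hkt' _ (hpt z) ?_)
      rw [((h.fn w w jw jw).2 z t).1] at hw
      exact hw)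
  obtain ⟨-, -, -, -, -, -, -, -, -, -, hgs, -⟩ := (hFHM n).1 A θ hF
  have hus : Sm (u t) := hHu.fam.sm t ⟨ht1.le, ht2⟩
  have hws : Sm (w t) := hHw.fam.sm t ⟨ht1.le, ht2⟩
  have hg : Hom0 (ggf A (u t) (u t)) := (hgs (u t) (u t) hus hus).1.hom
  have hn0 : 0 < ‖x‖ := norm_pos_iff.2 hx
  obtain ⟨z, hz, -⟩ := pt_surj hM x hx
  have hz' := hfin z ⟨t, ht1, ht2⟩ hkt
  rw [((h.fn u u ju ju).2 z ⟨t, ht1, ht2⟩).2.1, ((h.fn w w jw jw).2 z ⟨t, ht1, ht2⟩).1, hz] at hz'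
  simp only at hz'
  rw [hg ‖x‖⁻¹ x (inv_pos.2 hn0), hws.hom ‖x‖⁻¹ x (inv_pos.2 hn0)] at hz'
  exact hz'

end Pool.Agent.Helper36.FLG
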